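import Pool.Agent.helper13.BEY.COB
import Pool.Agent.helper14.BEY.ETA
import Pool.Agent.helper2.BEY.DIV
import Pool.Agent.helper20.BEY.FIB
import Pool.Agent.helper20.BEY.GMS
import Pool.Agent.helper20.BEY.LVZ
import Pool.Agent.helper20.BEY.SBG
import Pool.Agent.helper20.BEY.WLG
import Pool.Agent.helper21.BEY.EMS
import Pool.Agent.helper23.BEY.CLU
import Pool.Agent.helper24.BEY.OSS
import Pool.Agent.helper27.BEY.CLT
import Pool.Agent.helper30.BEY.FAR
import Pool.Agent.helper31.BEY.WCB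
import Pool.Agent.helper33.BEY.AMP
import Pool.Agent.helper35.BEY.PE1
import Pool.Agent.helper38.BEY.BLK
import Pool.Agent.helper38.BEY.KLS
import Pool.Agent.helper5.LDH.Assembly
import Pool.Agent.helper50.BEY.IBP
import Pool.Agent.helper58.BEY.FCO
import Pool.Agent.helper59.BEY.OSA
import Pool.Agent.helper59.BEY.OSB
import Pool.Agent.helper59.BEY.TAS
import Pool.Agent.helper60.BEY.NUB
import Pool.Agent.helper66.BEY.CLI
import Pool.Agent.helper68.BEY.NUC
import Pool.Agent.helper68.BEY.PHF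
import Pool.Agent.helper68.BEY.SPL
import Pool.Agent.helper68.BEY.TAI
import Pool.Agent.helper69.BEY.PNM
import Pool.Agent.helper76.BEY.CPB
import Pool.Agent.helper76.BEY.DTS
import Pool.Agent.helper76.BEY.MOS
import Pool.Agent.helper79.BEY.OS0
import Pool.Agent.helper81.BEY.DUA
import Pool.Agent.helper84.BEY.TEL
import Pool.Agent.helper98.BEY.MST

/-!
# Project BEY (MP_4467b5_nt): assembly of the rows of Spec A and Spec B
-/

set_option autoImplicit false

namespace Pool.Agent.BEY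

/-- zero density beyond the density hypothesis, for every `σ > 3/4` -/
theorem fin : FIB_stmt := by
  have hOS0 : OS0_stmt := OS0 IBP
  have hOSS : OSS_stmt := OSS (OSA IBP) (OSB IBP)
  have hPNM : PNM_stmt := PNM PE1 hOS0 hOSS
  have hFAR : FAR_stmt := FAR (DUA FCO DIV) hPNM hOS0
  have hMST : MST_stmt := MST GMS TAI ETA AMP hFAR
  have hLVZ : LVZ_stmt := LVZ CLU SBG WLG (SPL (BLK hMST))
  have hMOS : MOS_stmt := MOS PHF
  have hDTS : DTS_stmt := DTS (EMS LDH.EM LDH.ABL PHF) hMOS (TEL PHF)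
  have hCLI : CLI_stmt := CLI LDH.LVS CPB LDH.PWB NUB
  have hCLT : CLT_stmt := CLT hLVZ (WCB PHF) (KLS LDH.KL LDH.ABL PHF) (TAS PHF) NUC
  exact FIB (COB LDH.SEP hDTS hMOS hCLI hCLT (LDH.TAZ Pool.Agent.DH.TAY) LDH.WTJ)

end Pool.Agent.BEY
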