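import Pool.Agent.helper5.LDH.Spec

/-!
# Project BEY (MP_4467b5_nt): `N(σ, T) ≤ C T^((3/(2σ)) (1-σ) + ε)` for all `σ > 3/4`. Definitions and interface
-/

set_option autoImplicit false

open Complex MeasureTheory

namespace Pool.Agent.BEY

/-- the smooth cutoff: `1` for `x ≤ 1`, `0` for `x ≥ 3/2` -/
noncomputable def phi (x : ℝ) : ℝ := 1 - Real.smoothTransition (2 * (x - 1))

/-- the smooth block, supported in `[1, 2]` -/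
noncomputable def psi (x : ℝ) : ℝ := phi (3 * x / 4) - phi x

/-- the smooth zeta sum `∑ w(n/M) n^(-it)` (for `w` supported in `[1, 2]`) -/
noncomputable def Sz (w : ℝ → ℝ) (M t : ℝ) : ℂ :=
  ∑ n ∈ Finset.Icc 1 ⌊2 * M⌋₊, ((w ((n : ℝ) / M) : ℝ) : ℂ) * (n : ℂ) ^ (-((t : ℂ) * I))

/-- weights supported in `[1, 2]` with three derivatives bounded by `K` -/
def Wc (K : ℝ) (w : ℝ → ℝ) : Prop :=
  ContDiff ℝ 3 w ∧ (∀ x, x ∉ Set.Icc (1 : ℝ) 2 → w x = 0) ∧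
    ∀ x, |w x| ≤ K ∧ |iteratedDeriv 1 w x| ≤ K ∧ |iteratedDeriv 2 w x| ≤ K ∧
      |iteratedDeriv 3 w x| ≤ K

/-- **LVZ**. Large values of smooth zeta sums (the strength of the twelfth power moment). -/
def LVZ_stmt : Prop := ∀ ε : ℝ, 0 < ε → ∃ C : ℝ, 0 < C ∧ ∀ (T M V : ℝ) (w : ℝ → ℝ)
  (W : Finset ℝ), 1 ≤ T → 1 ≤ M → M ≤ T → Wc 1 w → T ^ ε ≤ V → (∀ t ∈ W, T ≤ t ∧ t ≤ 2 * T) →
  (∀ t ∈ W, ∀ s ∈ W, t ≠ s → 1 ≤ |t - s|) → (∀ t ∈ W, V * M ^ (1 / 2 : ℝ) ≤ ‖Sz w M t‖) →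
  (W.card : ℝ) ≤ C * T ^ ε * (T ^ 2 * V ^ (-12 : ℝ) + T * V ^ (-6 : ℝ))

end Pool.Agent.BEY
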