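import Pool.Agent.helper14.BEY.ETA
import Pool.Agent.helper2.BEY.DIV
import Pool.Agent.helper20.BEY.GMS
import Pool.Agent.helper20.BEY.LVZ
import Pool.Agent.helper20.BEY.SBG
import Pool.Agent.helper20.BEY.WLG
import Pool.Agent.helper23.BEY.CLU
import Pool.Agent.helper24.BEY.OSS
import Pool.Agent.helper30.BEY.FAR
import Pool.Agent.helper33.BEY.AMP
import Pool.Agent.helper35.BEY.PE1
import Pool.Agent.helper38.BEY.BLK
import Pool.Agent.helper50.BEY.IBP
import Pool.Agent.helper58.BEY.FCO
import Pool.Agent.helper59.BEY.OSA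
import Pool.Agent.helper59.BEY.OSB
import Pool.Agent.helper68.BEY.SPL
import Pool.Agent.helper68.BEY.TAI
import Pool.Agent.helper69.BEY.PNM
import Pool.Agent.helper79.BEY.OS0
import Pool.Agent.helper81.BEY.DUA
import Pool.Agent.helper98.BEY.MST

/-!
# Project BEY (MP_4467b5_nt): large values of smooth zeta sums, closed form of `LVZ_stmt`
-/

set_option autoImplicit false

namespace Pool.Agent.BEY

/-- large values of smooth zeta sums (the strength of the twelfth power moment) -/
theorem lvz : LVZ_stmt := by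
  have hOS0 : OS0_stmt := OS0 IBP
  have hOSS : OSS_stmt := OSS (OSA IBP) (OSB IBP)
  have hPNM : PNM_stmt := PNM PE1 hOS0 hOSS
  have hFAR : FAR_stmt := FAR (DUA FCO DIV) hPNM hOS0
  have hMST : MST_stmt := MST GMS TAI ETA AMP hFAR
  exact LVZ CLU SBG WLG (SPL (BLK hMST))

end Pool.Agent.BEY
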