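import Pool.Agent.helper5.BEY.Defs

/-!
# Project BEY, Spec A (MP_4467b5_nt): large values of smooth zeta sums (`LVZ_stmt`), the strength of the twelfth power moment

RULES. Row `XXX`: file `Pool/Agent/<seat>/BEY/XXX.lean`, `import Pool.Agent.helper5.BEY.SpecA`, `set_option autoImplicit false`,
`namespace Pool.Agent.BEY`, theorem line exactly as in the lock note (any other `_stmt` of this file may be added as a hypothesis,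
no circles). Auxiliary lemmas are prefixed `XXX_`. No straight double quotes, no convert / congr!. Land, note DONE + path, one line to helper5.

IDEA. Local Gauss mean square of the smooth sum `∑ w(n/M) n^(-it)` at scale `G`; the off-diagonal terms are
`∑_h ∑_n W(h, n/h) gz G (n/h) (1 + h/n)^(-it)`. Summed over `t ∈ W` (a `G`-separated set) this is a sum of a function `F` over the fractions `n/h`;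
its Fourier coefficients (as a periodic function) are controlled by `∫ |P|²`, `∫ |P'|²`, which are sums of oscillatory integrals over pairs `t, t'` and shifts `j`
(first and second derivative tests only).
-/

set_option autoImplicit false

open Complex MeasureTheory

namespace Pool.Agent.BEY

/-- `log (1 + 1/y)` -/
noncomputable def el (y : ℝ) : ℝ := Real.log (1 + 1 / y)

/-- `(1 + 1/y)^(-it)` -/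
noncomputable def E (t y : ℝ) : ℂ := Complex.exp (((-(t * el y) : ℝ) : ℂ) * I)

/-- amplitudes on `[Q, 4Q]`, one derivative -/
def Am (Q : ℝ) (A : ℝ → ℝ) : Prop :=
  ContDiff ℝ 1 A ∧ (∀ y, y ∉ Set.Icc Q (4 * Q) → A y = 0) ∧ ∀ y, |A y| ≤ 1 ∧ |deriv A y| ≤ 1 / Q

/-- amplitudes on `[Q, 4Q]`, two derivatives -/
def Am2 (Q : ℝ) (A : ℝ → ℝ) : Prop :=
  ContDiff ℝ 2 A ∧ (∀ y, y ∉ Set.Icc Q (4 * Q) → A y = 0) ∧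
    ∀ y, |A y| ≤ 1 ∧ |deriv A y| ≤ 1 / Q ∧ |deriv (deriv A) y| ≤ 1 / Q ^ 2

/-- the oscillatory integral of the pair `t, t'` with the shift `j` -/
noncomputable def OI (A B : ℝ → ℝ) (t t' : ℝ) (j : ℤ) : ℂ :=
  ∫ y : ℝ, ((A (y + j) * B y : ℝ) : ℂ) * (E t (y + j) * (starRingEnd ℂ) (E t' y))

/-- `∑ c(t) A(y) (1 + 1/y)^(-it)` over `t ∈ W` -/
noncomputable def FW (A : ℝ → ℝ) (W : Finset ℝ) (c : ℝ → ℂ) (y : ℝ) : ℂ :=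
  ∑ t ∈ W, c t * (((A y : ℝ) : ℂ) * E t y)

/-- the periodization on `[0, 1]` of a function supported in `[Q, 4Q]`, `Q ≥ 1` -/
noncomputable def Pz (Q : ℝ) (F : ℝ → ℂ) (x : ℝ) : ℂ :=
  ∑ j ∈ Finset.range (⌈4 * Q⌉₊ + 1), F (x + j)

/-- the weight of the pair `n = h y`, `n + h` -/
noncomputable def Wz (w : ℝ → ℝ) (M h y : ℝ) : ℝ := w (h * y / M) * w (h * (y + 1) / M)

/-- its Gauss weight -/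
noncomputable def gz (G y : ℝ) : ℝ := Real.exp (-(G * el y) ^ 2 / 4)

/-- the local Gauss mean square at scale `G` around `t` -/
noncomputable def FG (w : ℝ → ℝ) (M G t : ℝ) : ℝ :=
  1 / G * ∫ u : ℝ, Real.exp (-(u / G) ^ 2) * ‖Sz w M (t + u)‖ ^ 2

/-! ## Part 1: oscillatory integrals -/

/-- **IBP** (short). uses: nothing. Integration by parts: `b θ' e^(iθ) = -i b (e^(iθ))'`. -/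
def IBP_stmt : Prop := ∀ (p q : ℝ) (b b' θ θ' : ℝ → ℝ), p ≤ q →
  (∀ y ∈ Set.Icc p q, HasDerivAt b (b' y) y) → (∀ y ∈ Set.Icc p q, HasDerivAt θ (θ' y) y) →
  ContinuousOn b' (Set.Icc p q) → ContinuousOn θ' (Set.Icc p q) →
  ‖∫ y in p..q, ((b y * θ' y : ℝ) : ℂ) * Complex.exp (((θ y : ℝ) : ℂ) * I)‖ ≤
    |b p| + |b q| + ∫ y in p..q, |b' y|

/-- **OS0** (medium). uses: IBP_stmt. `el' y = -1/(y(y+1))`. First claim: support of length `3Q`. Second: `j = 0`, `θ = -(t-t') el y`, `θ' = (t-t')/(y(y+1))`, `b = A B y(y+1)/(t-t')` on `[Q, 4Q]`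
(`b = 0` at the end points), `|b'| ≤ C Q/|t-t'|`. Third: `θ = -t el y`, `b = A y(y+1)/t`. -/
def OS0_stmt : Prop := ∃ C : ℝ, 0 < C ∧ ∀ (Q t t' : ℝ) (A B : ℝ → ℝ), 1 ≤ Q → Am Q A → Am Q B →
  (∀ j : ℤ, ‖OI A B t t' j‖ ≤ C * Q) ∧ |t - t'| * ‖OI A B t t' 0‖ ≤ C * Q ^ 2 ∧
    |t| * ‖∫ y : ℝ, ((A y : ℝ) : ℂ) * E t y‖ ≤ C * Q ^ 2

/-- **OSA** (medium). uses: IBP_stmt. No stationary point. `θ(y) = -t el (y+j) + t' el y`, `θ' = D/N`, `N = y(y+1)(y+j)(y+j+1)`, `D = t y(y+1) - t'(y+j)(y+j+1) = (t-t') y(y+1) - t' j (2y+j+1)`.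
On the support `Q ≤ y`, `y + j ≤ 4Q`: `-D ≥ t' j y` (if `t > t'`: `(t-t') y(y+1) ≤ y (t-t')(4Q+1) ≤ y t' j`) and `|D'| ≤ (4/Q)|D|` (`t > t'`: `|D'| ≤ 2(t-t')(4Q+1) + 2t'j ≤ 4 t' j`; `t ≤ t'`: `|D| = (t'-t) y(y+1) + t'j(2y+j+1)`,
`|D'| ≤ (t'-t)(2y+1) + 2t'j ≤ (3/y)|D|`). `b = A(y+j) B(y) N/D` : `|b| ≤ C Q⁴/(T j Q)`, `|b'| ≤ C Q²/(T j)` (`|N'| ≤ (C/Q) N`), zero at the ends of the support. -/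
def OSA_stmt : Prop := ∃ C : ℝ, 0 < C ∧ ∀ (Q T t t' : ℝ) (j : ℤ) (A B : ℝ → ℝ), 1 ≤ Q → Am Q A →
  Am Q B → 0 < T → T / 2 ≤ t' → t' ≤ 3 * T → 1 ≤ j → (t - t') * (4 * Q + 1) ≤ t' * j →
  ‖OI A B t t' j‖ ≤ C * (Q ^ 3 / (T * j))

/-- **OSB** (medium). uses: IBP_stmt. `Δ = t - t' > 0`, `τ = (Q³/Δ)^(1/2)`. `τ ≥ Q`: trivial bound `3Q`. Otherwise: `D` (see OSA) is a quadratic polynomial with leading coefficient `Δ > 0` and `D(0) = -t' j (j+1) < 0`, so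
`D = Δ (y - y₁)(y - y₂)`, `y₂ < 0 < y₁`, and `|D| ≥ Δ |y - y₁| Q` for `y ≥ Q`. The part `|y - y₁| ≤ τ` contributes `≤ 2τ`. On the two remaining parts of `[Q, 4Q]`: IBP with `b = A(y+j) B(y) N/D`, `|b| ≤ 400·2 Q³/(Δ|y-y₁|) ≤ C τ`,
`|b'| ≤ C (Q³/(Δ|y-y₁|)) (1/Q + 1/|y-y₁|)` (`D'/D = 1/(y-y₁) + 1/(y-y₂)`), and `∫ 1/|y-y₁| ≤ 6Q/τ`, `∫ 1/|y-y₁|² ≤ 2/τ`. Total `≤ C Q³/(Δτ) = C τ`. (If `j > 3Q` the integral is 0.) -/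
def OSB_stmt : Prop := ∃ C : ℝ, 0 < C ∧ ∀ (Q t t' : ℝ) (j : ℤ) (A B : ℝ → ℝ), 1 ≤ Q → Am Q A →
  Am Q B → 0 < t' → t' < t → 1 ≤ j → ‖OI A B t t' j‖ ≤ C * (Q ^ 3 / (t - t')) ^ (1 / 2 : ℝ)

/-- **OSS** (medium). uses: OSA_stmt, OSB_stmt. `OI A B t t' (-j)` is the conjugate of `OI B A t' t j` (substitution `y → y + j`). So let `j ≥ 1`. `t ≤ t'`: OSA for all `j`, `∑ 1/j ≤ 1 + log (5Q)`. `t > t'`: OSA for `j ≥ Δ(4Q+1)/t'`; at most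
`Δ(4Q+1)/t' ≤ 10 Δ Q/T` other `j`, OSB: `(ΔQ/T)(Q³/Δ)^(1/2) = Δ^(1/2) Q^(5/2)/T`. -/
def OSS_stmt : Prop := ∃ C : ℝ, 0 < C ∧ ∀ (Q T t t' : ℝ) (A B : ℝ → ℝ), 1 ≤ Q → Am Q A → Am Q B →
  0 < T → T / 2 ≤ t → t ≤ 3 * T → T / 2 ≤ t' → t' ≤ 3 * T →
  ∑ j ∈ (Finset.Icc (-(⌈4 * Q⌉₊ : ℤ)) (⌈4 * Q⌉₊ : ℤ)).erase 0, ‖OI A B t t' j‖ ≤
    C * (|t - t'| ^ (1 / 2 : ℝ) * Q ^ (5 / 2 : ℝ) / T + Q ^ 3 * (1 + Real.log Q) / T)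

/-! ## Part 2: periodization and duality -/

/-- **PE1** (medium). uses: nothing. `‖∑ j, F (x+j)‖² = ∑ j j', F (x+j) conj (F (x+j'))`; integrate over `[0,1]`, `y = x + j'`, `k = j - j'`: `∑ k, ∫ F (y+k) conj (F y) dy` (`F = 0` outside `[Q, 4Q]`, so all `j'` may be added), and
`∫ F (y+k) conj (F y) = ∑ t t', c t conj (c t') OI A A t t' k`. -/
def PE1_stmt : Prop := ∀ (Q : ℝ) (A : ℝ → ℝ) (W : Finset ℝ) (c : ℝ → ℂ), 1 ≤ Q → Am Q A →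
  ∫ x in (0 : ℝ)..1, ‖Pz Q (FW A W c) x‖ ^ 2 ≤ ∑ t ∈ W, ∑ t' ∈ W, ‖c t‖ * ‖c t'‖ *
    ∑ j ∈ Finset.Icc (-(⌈4 * Q⌉₊ : ℤ)) (⌈4 * Q⌉₊ : ℤ), ‖OI A A t t' j‖

/-- **PNM** (medium). uses: PE1_stmt, OS0_stmt, OSS_stmt. `j = 0`: `t = t'`: `C Q`; `t ≠ t'`: `C Q²/|t-t'|`, and for fixed `t` `∑ t' ≠ t, 1/|t-t'| ≤ (2/G)(1 + log card W)`-like (`G`-separated: order them), `card W ≤ 5T/(2G) + 1 ≤ 4T`.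
`j ≠ 0`: OSS, `|t-t'| ≤ T₀`, `log Q ≤ log T`. -/
def PNM_stmt : Prop := ∃ C : ℝ, 0 < C ∧ ∀ (Q T G T₀ : ℝ) (A : ℝ → ℝ) (W : Finset ℝ) (c : ℝ → ℂ),
  1 ≤ Q → Q ≤ T → 1 ≤ G → Am Q A → (∀ t ∈ W, T / 2 ≤ t ∧ t ≤ 3 * T) → (∀ t ∈ W, ‖c t‖ ≤ 1) →
  (∀ t ∈ W, ∀ s ∈ W, t ≠ s → G ≤ |t - s|) → (∀ t ∈ W, ∀ s ∈ W, |t - s| ≤ T₀) →
  ∫ x in (0 : ℝ)..1, ‖Pz Q (FW A W c) x‖ ^ 2 ≤ C * (1 + Real.log T) *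
    ((W.card : ℝ) * (Q + Q ^ 2 / G) +
      (W.card : ℝ) ^ 2 * (T₀ ^ (1 / 2 : ℝ) * Q ^ (5 / 2 : ℝ) / T + Q ^ 3 / T))

/-- **FCO** (medium). uses: nothing. Fourier series on `[0, 1]` of a `C¹` function with `P 0 = P 1`: `c k = ∫ P x e^(-2πikx)`. `c k = (2πik)⁻¹ c_k(P')` (integration by parts), Parseval for `P` and `P'` (Mathlib: `tsum_sq_fourierCoeff`,
`hasSum_sq_fourierCoeffOn`), Cauchy–Schwarz gives `∑ ‖c k‖ < ∞`, so `P x = ∑ c k e^(2πikx)` on `[0,1]` (Mathlib: `has_pointwise_sum_fourier_series_of_summable`), and `∑ a < h, e^(2πika/h) = h` if `h ∣ k`, else `0`. -/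
def FCO_stmt : Prop := ∀ P P' : ℝ → ℂ, (∀ x, HasDerivAt P (P' x) x) → Continuous P' → P 0 = P 1 →
  ∃ c : ℤ → ℂ, Summable (fun k => ‖c k‖) ∧ c 0 = ∫ x in (0 : ℝ)..1, P x ∧
    (∀ h : ℕ, 1 ≤ h → ∑ a ∈ Finset.range h, P ((a : ℝ) / h) = h * ∑' k : ℤ, c (h * k)) ∧
    Summable (fun k => ‖c k‖ ^ 2) ∧ ∑' k : ℤ, ‖c k‖ ^ 2 = ∫ x in (0 : ℝ)..1, ‖P x‖ ^ 2 ∧
    Summable (fun k : ℤ => (2 * Real.pi * k) ^ 2 * ‖c k‖ ^ 2) ∧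
    ∑' k : ℤ, (2 * Real.pi * k) ^ 2 * ‖c k‖ ^ 2 ≤ ∫ x in (0 : ℝ)..1, ‖P' x‖ ^ 2

/-- **DIV** (short/medium). uses: nothing; library: `divisor_bound` (`helper59/DM/DV`; `Pool.Agent.helper84.DM.d`). wlog `ε ≤ 1/2`; `d(k)² ≤ C k^ε`. `K ≥ 1`: `k ≤ K`: `≤ K·K^ε`; `k > K`: `K² ∑ k^(ε-2) ≤ C K^(1+ε)`. `K < 1`: `≤ K² ∑ C k^(ε-2) ≤ C' K`. -/
def DIV_stmt : Prop := ∀ ε : ℝ, 0 < ε → ∃ C : ℝ, 0 < C ∧ ∀ K : ℝ, 0 < K →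
  Summable (fun k : ℕ => Pool.Agent.helper84.DM.d k ^ 2 / (1 + ((k : ℝ) / K) ^ 2)) ∧
  ∑' k : ℕ, Pool.Agent.helper84.DM.d k ^ 2 / (1 + ((k : ℝ) / K) ^ 2) ≤ C * K * (1 + K) ^ ε

/-- **DUA** (medium/long). uses: FCO_stmt, DIV_stmt. `P = Pz Q F`, `P' = Pz Q F'`; `P 0 = P 1` (`F 0 = 0 = F (⌈4Q⌉₊+1)`). `∑ n, F (n/h) = ∑ a < h, P (a/h)` (`n = a + j h`; `F = 0` outside `[Q,4Q]`, `4Q h ≤ 8 H₀ Q`). FCO: the left side is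
`∑' m, c m * a m`, `a m = ∑ h ∈ Ico H₀ (2H₀), h ∣ m, α h * h`; `|a 0| ≤ 2 H₀²` and `c 0 = ∫ P = ∫ F`; for `m ≠ 0` `|a m| ≤ 2 H₀ d |m|`. Cauchy–Schwarz with the weight `1 + (m/K₀)²`: `∑ |a m|²/(1+(m/K₀)²) ≤ 8 H₀² ∑ d²/(…)` (DIV), and
`∑ (1 + (m/K₀)²)‖c m‖² ≤ ∫‖P‖² + K₀⁻² ∫‖P'‖²`. (`F`, `F'` are continuous, compact support.) -/
def DUA_stmt : Prop := ∀ ε : ℝ, 0 < ε → ∃ C : ℝ, 0 < C ∧ ∀ (Q K₀ : ℝ) (F F' : ℝ → ℂ) (H₀ : ℕ)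
  (α : ℕ → ℝ), 1 ≤ Q → 0 < K₀ → 1 ≤ H₀ → (∀ y, HasDerivAt F (F' y) y) → Continuous F' →
  (∀ y, y ∉ Set.Icc Q (4 * Q) → F y = 0) → (∀ h, |α h| ≤ 1) →
  ‖∑ h ∈ Finset.Ico H₀ (2 * H₀), ((α h : ℝ) : ℂ) *
      ∑ n ∈ Finset.range (⌈8 * (H₀ : ℝ) * Q⌉₊ + 1), F ((n : ℝ) / h)‖ ≤
    C * ((H₀ : ℝ) ^ 2 * ‖∫ y : ℝ, F y‖ + (H₀ : ℝ) * (K₀ * (1 + K₀) ^ ε) ^ (1 / 2 : ℝ) *
      ((∫ x in (0 : ℝ)..1, ‖Pz Q F x‖ ^ 2) +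
        (∫ x in (0 : ℝ)..1, ‖Pz Q F' x‖ ^ 2) / K₀ ^ 2) ^ (1 / 2 : ℝ))

/-- **FAR** (long). uses: DUA_stmt, PNM_stmt, OS0_stmt. `F = FW A W 1`, `K₀ = T/Q²`. `F' y = ∑ t, (A' y + A y * i t/(y(y+1))) E t y` (for `y ≥ Q`; zero outside the support), so
`F'/K₀ = (Q/T) FW (Q A') W 1 + 12 FW A₃ W (i t/(3T))`, `A₃ = A Q²/(4y(y+1))` (`Am Q` for both: `|A Q²/(y(y+1))| ≤ 1`, derivative `≤ 4/Q`; extend by `0` for `y < Q`), `Q ≤ T`. `‖a + b‖² ≤ 2‖a‖² + 2‖b‖²`, PNM three times: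
`(∫‖P‖² + K₀⁻²∫‖P'‖²)^(1/2) ≤ C (1+log T)^(1/2) (R^(1/2) (Q + Q²/G)^(1/2) + R (T₀^(1/4) Q^(5/4) + Q^(3/2)) T^(-1/2))`; multiply by `H₀ (T^(1/2)/Q)(1+K₀)^(ε'/2)`, `K₀ ≤ T`. `‖∫ F‖ ≤ R C Q²/(T/2)` (OS0). -/
def FAR_stmt : Prop := ∀ ε : ℝ, 0 < ε → ∃ C : ℝ, 0 < C ∧ ∀ (Q T G T₀ : ℝ) (A : ℝ → ℝ)
  (W : Finset ℝ) (H₀ : ℕ) (α : ℕ → ℝ), 1 ≤ Q → Q ≤ T → 1 ≤ G → Am2 Q A → 1 ≤ H₀ →
  (∀ h, |α h| ≤ 1) → (∀ t ∈ W, T / 2 ≤ t ∧ t ≤ 3 * T) →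
  (∀ t ∈ W, ∀ s ∈ W, t ≠ s → G ≤ |t - s|) → (∀ t ∈ W, ∀ s ∈ W, |t - s| ≤ T₀) → 0 ≤ T₀ →
  ‖∑ h ∈ Finset.Ico H₀ (2 * H₀), ((α h : ℝ) : ℂ) *
      ∑ n ∈ Finset.range (⌈8 * (H₀ : ℝ) * Q⌉₊ + 1), FW A W (fun _ => 1) ((n : ℝ) / h)‖ ≤
    C * T ^ ε * ((H₀ : ℝ) ^ 2 * (W.card : ℝ) * Q ^ 2 / T +
      (H₀ : ℝ) * (T ^ (1 / 2 : ℝ) * (W.card : ℝ) ^ (1 / 2 : ℝ) * Q ^ (-(1 / 2) : ℝ) *
        (1 + Q / G) ^ (1 / 2 : ℝ) +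
        (W.card : ℝ) * (T₀ ^ (1 / 4 : ℝ) * Q ^ (1 / 4 : ℝ) + Q ^ (1 / 2 : ℝ))))

/-! ## Part 3: the mean square -/

/-- **AMP** (medium/long). uses: nothing. `Q = M/(2H₀)`. `Wz w M η y ≠ 0` needs `η y/M ∈ [1,2]`, so `Q ≤ M/η ≤ y ≤ 2M/η ≤ 4Q`. Derivative in `h`: `(y/M) w'(ηy/M) w(η(y+1)/M) + ((y+1)/M) w(ηy/M) w'(η(y+1)/M)`, with `y + 1 ≤ 5Q`, `Q/M = 1/(2H₀)`. Every
derivative in `y` of `w(ηy/M)` gives a factor `η/M ≤ 1/Q`. `gz' = -(G²/2) el el' gz`, `|el| ≤ 1/y`, `|el'| ≤ 1/y²`, `|el''| ≤ 3/y³`, `el ≥ 1/(2y)` (`y ≥ 1`), `(G/y)^(2a) e^(-G²/(16y²)) ≤ C_a`: `|gz'| ≤ C/Q`, `|gz''| ≤ C/Q²` on `[Q, 4Q]`. For `y < Q` all functions are `0`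
(also near `Q`: `w` and its derivatives vanish at `1`). -/
def AMP_stmt : Prop := ∃ K : ℝ, 1 ≤ K ∧ ∀ (w : ℝ → ℝ) (M H₀ η G Q : ℝ), Wc 1 w → 1 ≤ H₀ →
  H₀ ≤ η → η ≤ 2 * H₀ → 0 < G → Q = M / (2 * H₀) → 1 ≤ Q →
  Am2 Q (fun y => Wz w M (2 * H₀) y * gz G y / K) ∧
  Am2 Q (fun y => H₀ * deriv (fun h => Wz w M h y) η * gz G y / K)

/-- **ETA** (medium). uses: nothing. For every `y`: `Wz w M h y = Wz w M (2H₀) y - ∫ η in h..2H₀, deriv (fun h => Wz w M h y) η`; exchange the finite sums and the integral: the second part is `∫ η in H₀..2H₀` of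
`H₀⁻¹` times the sum in the second hypothesis with `α h = 1` if `h ≤ η`, else `0`. -/
def ETA_stmt : Prop := ∀ (w : ℝ → ℝ) (M B : ℝ) (H₀ L : ℕ) (e : ℝ → ℂ), Wc 1 w → 0 < M → 1 ≤ H₀ →
  (∀ α : ℕ → ℝ, (∀ h, |α h| ≤ 1) → ‖∑ h ∈ Finset.Ico H₀ (2 * H₀), ((α h : ℝ) : ℂ) *
    ∑ n ∈ Finset.range L, ((Wz w M (2 * H₀) ((n : ℝ) / h) : ℝ) : ℂ) * e ((n : ℝ) / h)‖ ≤ B) →
  (∀ (α : ℕ → ℝ) (η : ℝ), (∀ h, |α h| ≤ 1) → (H₀ : ℝ) ≤ η → η ≤ 2 * H₀ →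
    ‖∑ h ∈ Finset.Ico H₀ (2 * H₀), ((α h : ℝ) : ℂ) * ∑ n ∈ Finset.range L,
      (((H₀ : ℝ) * deriv (fun x => Wz w M x ((n : ℝ) / h)) η : ℝ) : ℂ) * e ((n : ℝ) / h)‖ ≤ B) →
  ‖∑ h ∈ Finset.Ico H₀ (2 * H₀), ∑ n ∈ Finset.range L,
    ((Wz w M h ((n : ℝ) / h) : ℝ) : ℂ) * e ((n : ℝ) / h)‖ ≤ 2 * B

/-- **GMS** (medium). uses: nothing. As `Pool.Agent.LDH.INT_stmt` (`helper31/LDH/INT`): multiply out, `(1/G)∫ exp(-(u/G)²) exp(-iuy) du = √π exp(-G²y²/4)`. The pairs `n, n + h` with `1 ≤ h ≤ M` (`M ≤ n`, `n + h ≤ 2M`): `w(n/M) w((n+h)/M) = Wz w M h (n/h)`,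
`exp(-(G log((n+h)/n))²/4) = gz G (n/h)`, `((n+h)/n)^(-it) = E t (n/h)`. Diagonal: at most `M + 1 ≤ 2M` terms `≤ 1`; `√π ≤ 2`. (`n = 0`: `w 0 = 0`.) -/
def GMS_stmt : Prop := ∀ (w : ℝ → ℝ) (M G : ℝ) (W : Finset ℝ), Wc 1 w → 1 ≤ M → 0 < G →
  ∑ t ∈ W, FG w M G t ≤ 4 * M * (W.card : ℝ) + 4 * ‖∑ h ∈ Finset.Ico 1 (⌊M⌋₊ + 1),
    ∑ n ∈ Finset.range (⌈4 * M⌉₊ + 1), ((Wz w M h ((n : ℝ) / h) : ℝ) : ℂ) *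
      (((gz G ((n : ℝ) / h) : ℝ) : ℂ) * ∑ t ∈ W, E t ((n : ℝ) / h))‖

/-- **TAI** (short/medium). uses: nothing. If `Wz ≠ 0`: `n + h ≤ 2M`, `el (n/h) = log(1 + h/n) ≥ h/(n+h) ≥ h/(2M)`, so `gz ≤ exp(-(G h/(2M))²/4) ≤ exp(-T^(2ε)/16)` for `h ≥ H₁ ≥ M T^ε/G`. At most `M (4M+2)` terms of norm `≤ card W exp(..)`, `M ≤ T`. -/
def TAI_stmt : Prop := ∀ ε : ℝ, 0 < ε → ∃ C : ℝ, 0 < C ∧ ∀ (w : ℝ → ℝ) (T M G : ℝ) (H₁ : ℕ)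
  (W : Finset ℝ), Wc 1 w → 1 ≤ M → M ≤ T → 1 ≤ G → 1 ≤ H₁ → M * T ^ ε / G ≤ (H₁ : ℝ) →
  ‖∑ h ∈ Finset.Ico H₁ (⌊M⌋₊ + 1), ∑ n ∈ Finset.range (⌈4 * M⌉₊ + 1),
    ((Wz w M h ((n : ℝ) / h) : ℝ) : ℂ) * (((gz G ((n : ℝ) / h) : ℝ) : ℂ) *
      ∑ t ∈ W, E t ((n : ℝ) / h))‖ ≤ C * (W.card : ℝ)

/-- **MST** (long). uses: GMS_stmt, TAI_stmt, ETA_stmt, AMP_stmt, FAR_stmt. `ε' = ε/8`, `G ≥ 2 T^ε`. `I` minimal with `2^I ≥ M T^ε'/G`; `Ico 1 (⌊M⌋₊+1)` = the blocks `Ico (2^i) (2^(i+1))`, `i < I`, and the tail `h ≥ 2^I` (TAI with `ε'`) (if `2^I > M` cut the last block: there are only `h ≤ M`,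
`Wz = 0` for `h > M`). Block `H₀ = 2^i < M T^ε'/G`: `Q = M/(2H₀) ≥ G T^(-ε')/2 ≥ 1`, `Q ≤ T`. ETA with `e = gz G y ∑ E t y`, `L = ⌈4M⌉₊ + 1 = ⌈8 H₀ Q⌉₊ + 1`, AMP (the amplitudes divided by `K`), FAR with `ε'`: the block is at most
`C K T^ε' (M² R/T + M (T^(1/2) R^(1/2) Q^(-3/2) (1+Q/G)^(1/2) + R (T₀^(1/4) Q^(-3/4) + Q^(-1/2))))` (`H₀ = M/(2Q)`). `M²/T ≤ M`, `Q^(-3/2)(1+Q/G)^(1/2) ≤ C T^(2ε') G^(-3/2)`, `Q^(-3/4) ≤ C T^ε' G^(-3/4)`, `Q^(-1/2) ≤ 1`. `I ≤ 2 log T + 1` blocks. -/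
def MST_stmt : Prop := ∀ ε : ℝ, 0 < ε → ∃ C : ℝ, 0 < C ∧ ∀ (w : ℝ → ℝ) (T M G T₀ : ℝ)
  (W : Finset ℝ), Wc 1 w → 1 ≤ M → M ≤ T → 2 * T ^ ε ≤ G → 0 ≤ T₀ →
  (∀ t ∈ W, T / 2 ≤ t ∧ t ≤ 3 * T) → (∀ t ∈ W, ∀ s ∈ W, t ≠ s → G ≤ |t - s|) →
  (∀ t ∈ W, ∀ s ∈ W, |t - s| ≤ T₀) →
  ∑ t ∈ W, FG w M G t ≤ C * T ^ ε * M * ((W.card : ℝ) +
    T ^ (1 / 2 : ℝ) * (W.card : ℝ) ^ (1 / 2 : ℝ) * G ^ (-(3 / 2) : ℝ) +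
    (W.card : ℝ) * T₀ ^ (1 / 4 : ℝ) * G ^ (-(3 / 4) : ℝ))

/-! ## Part 4: counting -/

/-- **BLK** (short/medium). uses: MST_stmt. `C = 4 C'`, `C'` from MST with `ε/2`; `T₀ = G³`: `R C T^ε M ≤ C' T^(ε/2) M (2R + T^(1/2) R^(1/2) G^(-3/2))`, `2R C' T^(ε/2) ≤ R C T^ε/2`, so `R ≤ T^(1/2) R^(1/2) G^(-3/2)`. (`M ≤ T` gives `1 ≤ T`.) -/
def BLK_stmt : Prop := ∀ ε : ℝ, 0 < ε → ∃ C : ℝ, 0 < C ∧ ∀ (w : ℝ → ℝ) (T M G : ℝ)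
  (W : Finset ℝ), Wc 1 w → 1 ≤ M → M ≤ T → 2 * T ^ ε ≤ G →
  (∀ t ∈ W, T / 2 ≤ t ∧ t ≤ 3 * T) → (∀ t ∈ W, ∀ s ∈ W, t ≠ s → G ≤ |t - s|) →
  (∀ t ∈ W, ∀ s ∈ W, |t - s| ≤ G ^ 3) → (∀ t ∈ W, C * T ^ ε * M ≤ FG w M G t) →
  (W.card : ℝ) ≤ T * G ^ (-3 : ℝ)

/-- **SPL** (short/medium). uses: BLK_stmt. Cut `[T, 2T]` into at most `T/G³ + 1` intervals of length `G³`. -/
def SPL_stmt : Prop := ∀ ε : ℝ, 0 < ε → ∃ C : ℝ, 0 < C ∧ ∀ (w : ℝ → ℝ) (T M G : ℝ)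
  (W : Finset ℝ), Wc 1 w → 1 ≤ M → M ≤ T → 2 * T ^ ε ≤ G →
  (∀ t ∈ W, T ≤ t ∧ t ≤ 2 * T) → (∀ t ∈ W, ∀ s ∈ W, t ≠ s → G ≤ |t - s|) →
  (∀ t ∈ W, C * T ^ ε * M ≤ FG w M G t) →
  (W.card : ℝ) ≤ T ^ 2 * G ^ (-6 : ℝ) + T * G ^ (-3 : ℝ)

/-- **SBG** (medium). uses: nothing. As `Pool.Agent.LDH.SOB_stmt` (`helper20/LDH/SOB`): `g(u) = M^(iu) Sz w M u`, `‖g‖ = ‖Sz w M u‖`, `‖g'(u)‖ = ‖Sz (w log) M u‖`; `‖g s‖² ≤ ∫ over [s-1/2, s+1/2] of 2‖g‖² + ‖g'‖²`; the unit intervals are disjoint and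
`exp(-(u/G)²) ≥ exp(-9/4)` for `|u| ≤ G + 1/2 ≤ 3G/2`. -/
def SBG_stmt : Prop := ∃ C : ℝ, 0 < C ∧ ∀ (w : ℝ → ℝ) (M G t B : ℝ) (S : Finset ℝ), Wc 1 w →
  1 ≤ M → 1 ≤ G → 0 ≤ B → (∀ s ∈ S, |s - t| ≤ G) → (∀ s ∈ S, ∀ s' ∈ S, s ≠ s' → 1 ≤ |s - s'|) →
  (∀ s ∈ S, B ≤ ‖Sz w M s‖) →
  (S.card : ℝ) * B ^ 2 ≤ C * G * (FG w M G t + FG (fun x => w x * Real.log x) M G t)

/-- **WLG** (short/medium). uses: nothing. `w log` is `w` times a smooth function near the support (`w = 0` near `x ≤ 0`); product rule on `[1, 2]`; scaling. -/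
def WLG_stmt : Prop := ∃ K : ℝ, 1 ≤ K ∧ ∀ w : ℝ → ℝ, Wc 1 w →
  Wc 1 (fun x => w x * Real.log x / K)

/-- **CLU** (medium, combinatorics). uses: nothing. `i(t)` = the largest `i ≤ card W` with `2^i ≤ #{s ∈ W : |s - t| ≤ 2^i G₀}` (`i = 0` is possible; `2^i ≤ card W`), `W_i = {t : i(t) = i}`, `Ws i` a maximal subset of `W_i` with distances `≥ 2^i G₀`. Every `t ∈ W_i` is within
`2^i G₀` of some `t' ∈ Ws i`, and `#{s ∈ W : |s - t'| ≤ 2^(i+1) G₀} < 2^(i+1)` (maximality of `i(t')`). -/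
def CLU_stmt : Prop := ∀ (W : Finset ℝ) (G₀ : ℝ), 0 < G₀ → ∃ Ws : ℕ → Finset ℝ,
  (∀ i, Ws i ⊆ W) ∧ (∀ i, ∀ t ∈ Ws i, ∀ s ∈ Ws i, t ≠ s → 2 ^ i * G₀ ≤ |t - s|) ∧
  (∀ i, ∀ t ∈ Ws i, ∃ S : Finset ℝ, S ⊆ W ∧ (∀ s ∈ S, |s - t| ≤ 2 ^ i * G₀) ∧ 2 ^ i ≤ S.card) ∧
  W.card ≤ ∑ i ∈ Finset.range (W.card + 1), 2 ^ (i + 1) * (Ws i).card

/-- **LVZ** (medium). uses: CLU_stmt, SBG_stmt, WLG_stmt, SPL_stmt. wlog `ε ≤ 1`. `ε₁ = ε/16`, `C₀, C₁, K` the constants of SBG, SPL (with `ε₁`), WLG. `G₀ = c V² T^(-2ε₁)`, `c = 1/(2 C₀ K² C₁ + 1)` (`FG` of `w log` is `K² FG` of `w log/K`). CLU. For `t ∈ Ws i`, `G = 2^i G₀`: SBG with `B = V M^(1/2)`: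
`2^i V² M ≤ C₀ G (FG w + FG (w log))`, so `FG w ≥ C₁ T^ε₁ M` or `FG (w log/K) ≥ C₁ T^ε₁ M` (`V²/G₀ = T^(2ε₁)/c`). SPL twice: `card (Ws i) ≤ 2 (T² G^(-6) + T G^(-3))`; the condition `2 T^ε₁ ≤ G₀` holds for `T ≥ T₁` as `V ≥ T^ε`; for `T ≤ T₁` use `card W ≤ T + 1` and
`V ≤ ‖Sz‖/M^(1/2) ≤ 2 M^(1/2) ≤ 2T₁^(1/2)`, a constant (so that the right side is bounded below). `∑ i, 2^(i+1) 2^(-3i) ≤ 4`. Total `≤ C (T² G₀^(-6) + T G₀^(-3)) ≤ C' T^(12 ε₁) (T² V^(-12) + T V^(-6))`. -/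
def LVZ_row : Prop := LVZ_stmt

end Pool.Agent.BEY
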